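import Pool.Agent.H86.WSR.Curve

set_option autoImplicit false
set_option linter.unusedSectionVars false

namespace Pool.Agent.H86.WSR

open Polynomial

section

variable (k : Type) [Field k] [IsAlgClosed k] [CharZero k]

/-- the defining polynomial -/
noncomputable def gpoly (n : ℕ) : (RatFunc k)[X] :=
  X ^ 2 ^ n - C (algebraMap k[X] (RatFunc k) (radi k n))

lemma irr (n : ℕ) : Irreducible (gpoly k n) := by
  have h2n : 0 < 2 ^ n := by positivity
  have hmonic : (X ^ 2 ^ n - C (radi k n) : k[X][X]).Monic := monic_X_pow_sub_C _ h2n.ne'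
  have hprime : Prime (node k 0) := prime_X_sub_C _
  have hP : (Ideal.span {node k 0}).IsPrime := by
    rw [Ideal.span_singleton_prime (node_ne 0)]; exact hprime
  have hE : (X ^ 2 ^ n - C (radi k n) : k[X][X]).IsEisensteinAt (Ideal.span {node k 0}) := by
    refine ⟨?_, ?_, ?_⟩
    · rw [hmonic.leadingCoeff]
      exact fun h => hP.ne_top ((Ideal.eq_top_iff_one _).2 h)
    · intro m hm
      rw [natDegree_X_pow_sub_C] at hm
      rw [coeff_sub, coeff_X_pow, if_neg hm.ne, zero_sub, coeff_C]
      split_ifs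
      · rw [Ideal.mem_span_singleton, dvd_neg, radi, hq, mul_assoc]
        exact Dvd.intro _ rfl
      · rw [neg_zero]; exact Ideal.zero_mem _
    · rw [coeff_sub, coeff_X_pow, if_neg h2n.ne, zero_sub, coeff_C_zero, Ideal.span_singleton_pow,
        Ideal.mem_span_singleton, dvd_neg, radi, hq, mul_assoc, sq,
        mul_dvd_mul_iff_left (node_ne 0)]
      intro h
      unfold node at h
      rw [dvd_iff_isRoot, IsRoot.def, eval_mul, mul_eq_zero] at h
      rcases h with h | h
      · simp at h
      · rw [G, eval_prod, Finset.prod_eq_zero_iff] at h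
        obtain ⟨l, _, h⟩ := h
        rw [eval_pow] at h
        have h1 := eq_zero_of_pow_eq_zero h
        simp only [node, eval_sub, eval_X, eval_C, Nat.cast_zero, zero_sub, neg_eq_zero] at h1
        have h2 : (l + 2 : ℕ) ≠ 0 := by omega
        exact h2 (by exact_mod_cast h1)
  have hirr : Irreducible (X ^ 2 ^ n - C (radi k n) : k[X][X]) :=
    hE.irreducible hP hmonic.isPrimitive (by rw [natDegree_X_pow_sub_C]; exact h2n)
  have h3 := (hmonic.irreducible_iff_irreducible_map_fraction_map (K := RatFunc k)).1 hirr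
  have h4 : (X ^ 2 ^ n - C (radi k n) : k[X][X]).map (algebraMap k[X] (RatFunc k)) = gpoly k n := by
    rw [gpoly, Polynomial.map_sub, Polynomial.map_pow, map_X, map_C]
  rwa [h4] at h3

variable {k} in
lemma eval₂_gpoly {T : Type} [CommRing T] (n : ℕ) (i : RatFunc k →+* T) (t : T) :
    eval₂ i t (gpoly k n) = t ^ 2 ^ n - i (algebraMap k[X] (RatFunc k) (radi k n)) := by
  rw [gpoly, eval₂_sub, eval₂_pow, eval₂_X, eval₂_C]

theorem exists_pointed_curve (n : ℕ) : ∃ (K : Type) (_ : Field K) (_ : Algebra k K),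
    IsFunctionField k K ∧ ∃ P : ValuationSubring K, IsPoint k P ∧
      weierstrassSemigroup k P = (Sg n : Set ℕ) := by
  have h2n : 2 ^ n ≠ 0 := by positivity
  have : Fact (Irreducible (gpoly k n)) := ⟨irr k n⟩
  have hmonic : (gpoly k n).Monic := monic_X_pow_sub_C _ h2n
  have : FiniteDimensional (RatFunc k) (AdjoinRoot (gpoly k n)) := hmonic.finite_adjoinRoot
  refine ⟨AdjoinRoot (gpoly k n), inferInstance, inferInstance, ?_⟩
  set w : AdjoinRoot (gpoly k n) := AdjoinRoot.root (gpoly k n) with hw
  have hwn : w ^ 2 ^ n = algebraMap k[X] (AdjoinRoot (gpoly k n)) (radi k n) := by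
    have h3 := AdjoinRoot.eval₂_root (gpoly k n)
    rw [gpoly, eval₂_sub, eval₂_pow, eval₂_X, eval₂_C, sub_eq_zero] at h3
    exact h3
  apply exists_of_tower (F := RatFunc k) (w := w) hwn
  · intro f
    obtain ⟨p, rfl⟩ := AdjoinRoot.mk_surjective f
    refine ⟨(p %ₘ gpoly k n).coeff, ?_⟩
    have h3 : AdjoinRoot.mk (gpoly k n) p = AdjoinRoot.mk (gpoly k n) (p %ₘ gpoly k n) := by
      rw [AdjoinRoot.mk_eq_mk]
      refine ⟨p /ₘ gpoly k n, ?_⟩
      have := modByMonic_add_div p (gpoly k n)
      linear_combination (-1 : (RatFunc k)[X]) * this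
    have hdeg : (p %ₘ gpoly k n).natDegree < 2 ^ n := by
      have h4 := natDegree_modByMonic_lt p hmonic (by
        intro h
        have := congrArg natDegree h
        rw [gpoly, natDegree_X_pow_sub_C, natDegree_one] at this
        exact h2n this)
      rwa [show (gpoly k n).natDegree = 2 ^ n from natDegree_X_pow_sub_C] at h4
    rw [h3, ← AdjoinRoot.aeval_eq, aeval_eq_sum_range' hdeg]
  · intro ζ hζ
    have hE : eval₂ (Algebra.ofId (RatFunc k) (AdjoinRoot (gpoly k n))).toRingHom
        (algebraMap k[X] (AdjoinRoot (gpoly k n)) (C ζ) * w) (gpoly k n) = 0 := by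
      have e : (Algebra.ofId (RatFunc k) (AdjoinRoot (gpoly k n)))
          (algebraMap k[X] (RatFunc k) (radi k n)) =
          algebraMap k[X] (AdjoinRoot (gpoly k n)) (radi k n) := by
        rw [Algebra.ofId_apply, ← IsScalarTower.algebraMap_apply]
      have e2 : (algebraMap k[X] (AdjoinRoot (gpoly k n)) (C ζ)) ^ 2 ^ n = 1 := by
        rw [← map_pow, ← C_pow, hζ, C_1, map_one]
      refine (eval₂_gpoly _ _ _).trans ?_
      rw [mul_pow, hwn, e2, one_mul, sub_eq_zero]
      exact e.symm
    refine ⟨AdjoinRoot.liftAlgHom (gpoly k n) (Algebra.ofId _ _)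
      (algebraMap k[X] (AdjoinRoot (gpoly k n)) (C ζ) * w) hE, ?_⟩
    rw [AdjoinRoot.coe_liftAlgHom]
    exact AdjoinRoot.lift_root hE

end

section count

open Finset

lemma card_PI_le {n : ℕ} (i : Fin n) : (PI i).card ≤ 4 * (n + 1) ^ 3 := by
  classical
  have h1 : (PI i).card ≤ ((range 4) ×ˢ ((range 4).biUnion fun j =>
      powersetCard j (Finset.univ : Finset (Fin n)))).card := by
    apply card_le_card_of_injOn
      (fun u => (u 0, Finset.univ.filter fun j : Fin n => u j.succ = 1))
    · intro u hu
      obtain ⟨hu1, hu2⟩ := mem_PI.1 hu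
      have h2 := deg_le hu2
      simp only [coe_product, Set.mem_prod, mem_coe, mem_range, mem_biUnion, mem_powersetCard,
        subset_univ, true_and]
      refine ⟨by omega, _, ?_, rfl⟩
      have h3 : (Finset.univ.filter fun j : Fin n => u j.succ = 1).card ≤ dg u := by
        rw [card_filter]
        refine sum_le_sum fun j _ => ?_
        split_ifs with h
        · omega
        · omega
      omega
    · intro u hu v hv huv
      obtain ⟨hu1, -⟩ := mem_PI.1 hu
      obtain ⟨hv1, -⟩ := mem_PI.1 hv
      simp only [Prod.mk.injEq] at huv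
      obtain ⟨h0, h1⟩ := huv
      funext j
      refine Fin.cases h0 (fun j => ?_) j
      have h2 := hu1 j
      have h3 := hv1 j
      have h4 : u j.succ = 1 ↔ v j.succ = 1 := by
        have := congrArg (fun s => j ∈ s) h1
        simpa using this
      omega
  refine h1.trans ?_
  rw [card_product, card_range]
  apply Nat.mul_le_mul_left
  refine card_biUnion_le.trans ?_
  calc ∑ j ∈ range 4, (powersetCard j (Finset.univ : Finset (Fin n))).card
      ≤ ∑ j ∈ range 4, n ^ j := by
        refine sum_le_sum fun j _ => ?_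
        rw [card_powersetCard, card_univ, Fintype.card_fin]
        exact Nat.choose_le_pow n j
    _ ≤ (n + 1) ^ 3 := by
        simp only [sum_range_succ, range_zero, sum_empty]
        nlinarith [Nat.zero_le (n ^ 2), Nat.zero_le n]

theorem depend (k : Type) [Field k] [IsAlgClosed k] (n : ℕ) :
    DependOnAtMost k (Sg n : Set ℕ) (4 * n * (n + 1) ^ 3) := by
  apply dependOnAtMost
  calc ∑ i : Fin n, (PI i).card ≤ ∑ _i : Fin n, 4 * (n + 1) ^ 3 :=
        sum_le_sum fun i _ => card_PI_le i
    _ = 4 * n * (n + 1) ^ 3 := by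
        rw [sum_const, card_univ, Fintype.card_fin, smul_eq_mul]; ring

end count

end Pool.Agent.H86.WSR
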