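import Mathlib

/-!
# Pointed curves, Weierstrass semigroups and numbers of parameters

A smooth projective connected curve `C` over an algebraically closed field `k` is the same thing as
its function field `K`, a finitely generated extension of `k` of transcendence degree one. The points
of `C` are the valuation rings of `K` that contain `k` and are different from `K`.
-/

set_option autoImplicit false

namespace Pool.Agent.H86.WSR

/-- `K` is a function field of one variable over `k`: a finitely generated field extension of
transcendence degree one, that is, the function field of a (unique) smooth projective curve. -/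
def IsFunctionField (k K : Type) [Field k] [Field K] [Algebra k K] : Prop :=
  (⊤ : IntermediateField k K).FG ∧ Algebra.trdeg k K = 1

/-- The valuation subring `P` of `K` is (the local ring of) a point of the curve with function field
`K`: it contains the constants `k` and is not all of `K`. -/
def IsPoint (k : Type) {K : Type} [Field k] [Field K] [Algebra k K] (P : ValuationSubring K) : Prop :=
  (∀ c : k, algebraMap k K c ∈ P) ∧ P ≠ ⊤

/-- The ring of rational functions that are regular at all points of the curve different from `P`,
that is, the coordinate ring of the affine curve `C ∖ {P}`. -/
def regularAway (k : Type) {K : Type} [Field k] [Field K] [Algebra k K] (P : ValuationSubring K) :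
    Subalgebra k K where
  carrier := {f | ∀ Q : ValuationSubring K, IsPoint k Q → Q ≠ P → f ∈ Q}
  mul_mem' := fun ha hb Q hQ hQP => Q.mul_mem _ _ (ha Q hQ hQP) (hb Q hQ hQP)
  add_mem' := fun ha hb Q hQ hQP => Q.add_mem _ _ (ha Q hQ hQP) (hb Q hQ hQP)
  algebraMap_mem' := fun c _ hQ _ => hQ.1 c

/-- The rational function `f` has a pole of order exactly `n` at the point `P` (for `n = 0`: `f` is
regular and does not vanish at `P`): `f ≠ 0`, `1 / f` is regular at `P` and generates the `n`-th power
of the maximal ideal of the local ring at `P`. -/
def HasPoleOfOrder {K : Type} [Field K] (P : ValuationSubring K) (f : K) (n : ℕ) : Prop :=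
  f ≠ 0 ∧ ∃ h : f⁻¹ ∈ P, Ideal.span {(⟨f⁻¹, h⟩ : P)} = IsLocalRing.maximalIdeal P ^ n

/-- The Weierstrass semigroup of the pointed curve `(C, P)`: the set of all `n` such that some rational
function on `C`, regular on `C ∖ {P}`, has a pole of order exactly `n` at `P`. -/
def weierstrassSemigroup (k : Type) {K : Type} [Field k] [Field K] [Algebra k K]
    (P : ValuationSubring K) : Set ℕ :=
  {n | ∃ f ∈ regularAway k P, HasPoleOfOrder P f n}

/-- The pointed curves over `k` with Weierstrass semigroup `S` depend on at most `m` parameters: there
are finitely many polynomials `F i` in variables `x_1, …, x_n`, whose coefficients are polynomials in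
the parameters `t_1, …, t_m`, such that for every pointed curve `(C, P)` with Weierstrass semigroup `S`
the coordinate ring of `C ∖ {P}` is isomorphic to `k[x_1, …, x_n] / (F i (t, x))` for some values
`t ∈ k ^ m` of the parameters. So all these pointed curves are fibres of one family with base the
affine space of dimension `m`, and the locus of all these pointed curves in the moduli space
has dimension at most `m`. -/
def DependOnAtMost (k : Type) [Field k] (S : Set ℕ) (m : ℕ) : Prop :=
  ∃ (n r : ℕ) (F : Fin r → MvPolynomial (Fin n) (MvPolynomial (Fin m) k)),
    ∀ (K : Type) [Field K] [Algebra k K], IsFunctionField k K →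
      ∀ P : ValuationSubring K, IsPoint k P → weierstrassSemigroup k P = S →
        ∃ t : Fin m → k, Nonempty (regularAway k P ≃ₐ[k]
          MvPolynomial (Fin n) k ⧸
            Ideal.span (Set.range fun i => MvPolynomial.map (MvPolynomial.eval t) (F i)))

end Pool.Agent.H86.WSR
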