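import Mathlib

set_option autoImplicit false
set_option linter.unusedSectionVars false

namespace Pool.Agent.H86.WSR

open Polynomial

section poly

variable {k : Type} [Field k] [CharZero k]

/-- the linear polynomial `x - i` -/
noncomputable def node (k : Type) [Field k] (i : ℕ) : k[X] := X - C (i : k)

lemma node_ne (i : ℕ) : node k i ≠ 0 := X_sub_C_ne_zero _

/-- the denominators -/
noncomputable def G (k : Type) [Field k] (n j : ℕ) : k[X] :=
  ∏ l ∈ Finset.range n, node k (l + 2) ^ (j / 2 ^ (l + 1))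

/-- `x (x - 1)` -/
noncomputable def hq (k : Type) [Field k] : k[X] := node k 0 * node k 1

/-- the radicand -/
noncomputable def radi (k : Type) [Field k] (n : ℕ) : k[X] := hq k * G k n (2 ^ n)

/-- the remainder -/
noncomputable def gg (k : Type) [Field k] (n j : ℕ) : k[X] :=
  hq k ^ j * ∏ l ∈ Finset.range n, node k (l + 2) ^ (2 ^ n / 2 ^ (l + 1) * (j % 2 ^ (l + 1)))

/-- the radical of the radicand -/
noncomputable def rd (k : Type) [Field k] (n : ℕ) : k[X] :=
  hq k * ∏ l ∈ Finset.range n, node k (l + 2)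

lemma G_ne (n j : ℕ) : G k n j ≠ 0 := Finset.prod_ne_zero_iff.2 fun _ _ => pow_ne_zero _ (node_ne _)

lemma hq_ne : hq k ≠ 0 := mul_ne_zero (node_ne _) (node_ne _)

lemma radi_ne (n : ℕ) : radi k n ≠ 0 := mul_ne_zero hq_ne (G_ne _ _)

lemma rd_eq (n : ℕ) : rd k n = ∏ i ∈ Finset.range (n + 2), node k i := by
  rw [Finset.prod_range_succ', Finset.prod_range_succ', rd, hq]
  simp only [add_assoc, one_add_one_eq_two, zero_add]
  ring

lemma rd_sqfree (n : ℕ) : Squarefree (rd k n) := by
  rw [rd_eq]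
  apply Separable.squarefree
  unfold node
  rw [separable_prod_X_sub_C_iff']
  intro i _ j _ h
  exact_mod_cast h

lemma rd_ne (n : ℕ) : rd k n ≠ 0 := (rd_sqfree n).ne_zero

lemma radi_pow (n j : ℕ) : radi k n ^ j = G k n j ^ (2 ^ n) * gg k n j := by
  rw [radi, mul_pow, gg, G, G, ← Finset.prod_pow, ← Finset.prod_pow, mul_left_comm,
    ← Finset.prod_mul_distrib]
  congr 1
  refine Finset.prod_congr rfl fun l hl => ?_
  rw [← pow_mul, ← pow_mul, ← pow_add]
  congr 1
  have hl' := Finset.mem_range.1 hl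
  have h1 : 2 ^ n / 2 ^ (l + 1) * 2 ^ (l + 1) = 2 ^ n :=
    Nat.div_mul_cancel (pow_dvd_pow 2 (by omega))
  have h2 := Nat.div_add_mod j (2 ^ (l + 1))
  calc 2 ^ n / 2 ^ (l + 1) * j
      = 2 ^ n / 2 ^ (l + 1) * (2 ^ (l + 1) * (j / 2 ^ (l + 1)) + j % 2 ^ (l + 1)) := by rw [h2]
    _ = (2 ^ n / 2 ^ (l + 1) * 2 ^ (l + 1)) * (j / 2 ^ (l + 1))
        + 2 ^ n / 2 ^ (l + 1) * (j % 2 ^ (l + 1)) := by ring
    _ = _ := by rw [h1, mul_comm (2 ^ n)]

lemma gg_dvd {n j : ℕ} (hj : j < 2 ^ n) : gg k n j ∣ rd k n ^ (2 ^ n - 1) := by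
  rw [gg, rd, mul_pow, ← Finset.prod_pow]
  apply mul_dvd_mul
  · apply pow_dvd_pow; omega
  · apply Finset.prod_dvd_prod_of_dvd
    intro l hl
    apply pow_dvd_pow
    have hl' := Finset.mem_range.1 hl
    have h1 : 2 ^ n / 2 ^ (l + 1) * 2 ^ (l + 1) = 2 ^ n :=
      Nat.div_mul_cancel (pow_dvd_pow 2 (by omega))
    have h2 : j % 2 ^ (l + 1) < 2 ^ (l + 1) := Nat.mod_lt _ (by positivity)
    have h3 : 0 < 2 ^ n / 2 ^ (l + 1) :=
      Nat.div_pos (Nat.pow_le_pow_right (by norm_num) (by omega)) (by positivity)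
    have h4 : 2 ^ n / 2 ^ (l + 1) * (j % 2 ^ (l + 1)) < 2 ^ n / 2 ^ (l + 1) * 2 ^ (l + 1) :=
      Nat.mul_lt_mul_of_pos_left h2 h3
    omega

lemma unit_of_pow_dvd {n : ℕ} {b : k[X]} (hb : b ^ 2 ^ n ∣ rd k n ^ (2 ^ n - 1)) : IsUnit b := by
  by_contra hu
  have hH : rd k n ≠ 0 := rd_ne n
  have h2n : 0 < 2 ^ n := by positivity
  have hb0 : b ≠ 0 := by
    rintro rfl
    rw [zero_pow h2n.ne', zero_dvd_iff] at hb
    exact pow_ne_zero _ hH hb
  obtain ⟨p, hp, hpb⟩ := WfDvdMonoid.exists_irreducible_factor hu hb0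
  have hpr : Prime p := hp.prime
  have h3 : p ^ 2 ^ n ∣ rd k n ^ (2 ^ n - 1) := (pow_dvd_pow_of_dvd hpb _).trans hb
  have h4 : p ∣ rd k n := hpr.dvd_of_dvd_pow ((dvd_pow_self p h2n.ne').trans h3)
  obtain ⟨u, hu'⟩ := h4
  rw [hu', mul_pow] at h3
  have h5 : p ∣ u ^ (2 ^ n - 1) := by
    have : p ^ (2 ^ n - 1) * p ∣ p ^ (2 ^ n - 1) * u ^ (2 ^ n - 1) := by
      rw [← pow_succ, Nat.sub_add_cancel h2n]; exact h3
    exact (mul_dvd_mul_iff_left (pow_ne_zero _ hp.ne_zero)).1 this
  have h6 : p ∣ u := hpr.dvd_of_dvd_pow h5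
  have h7 : p * p ∣ rd k n := by rw [hu']; exact mul_dvd_mul_left p h6
  exact hp.not_isUnit (rd_sqfree n p h7)

lemma mem_of_pow {n : ℕ} {F : Type} [Field F] [Algebra k[X] F] [IsFractionRing k[X] F] {s : F}
    {g c : k[X]} (hg : g ∣ rd k n ^ (2 ^ n - 1))
    (hs : s ^ 2 ^ n * algebraMap k[X] F g = algebraMap k[X] F c) :
    ∃ p : k[X], s = algebraMap k[X] F p := by
  obtain ⟨a, b, hab, hb⟩ := IsFractionRing.exists_reduced_fraction (A := k[X]) s
  have hb0 : (b : k[X]) ≠ 0 := nonZeroDivisors.ne_zero b.2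
  have hb0' : algebraMap k[X] F b ≠ 0 := by
    rw [Ne, IsFractionRing.to_map_eq_zero_iff]; exact hb0
  have hs' : s = algebraMap k[X] F a / algebraMap k[X] F b := by
    rw [← hb, IsFractionRing.mk'_eq_div]
  have h3 : a ^ 2 ^ n * g = c * (b : k[X]) ^ 2 ^ n := by
    apply IsFractionRing.injective k[X] F
    rw [hs', div_pow, div_mul_eq_mul_div, div_eq_iff (pow_ne_zero _ hb0')] at hs
    rw [map_mul, map_mul, map_pow, map_pow]
    exact hs
  have h4 : (b : k[X]) ^ 2 ^ n ∣ g := by
    have h5 : (b : k[X]) ^ 2 ^ n ∣ a ^ 2 ^ n * g := ⟨c, by rw [h3]; ring⟩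
    have h6 : IsCoprime ((b : k[X]) ^ 2 ^ n) (a ^ 2 ^ n) := by
      apply IsCoprime.pow
      exact hab.symm.isCoprime
    exact h6.dvd_of_dvd_mul_left h5
  have hu : IsUnit (b : k[X]) := unit_of_pow_dvd (h4.trans hg)
  obtain ⟨v, hv⟩ := hu.exists_left_inv
  refine ⟨v * a, ?_⟩
  rw [hs', map_mul, div_eq_iff hb0']
  have : algebraMap k[X] F v * algebraMap k[X] F b = 1 := by rw [← map_mul, hv, map_one]
  linear_combination (-algebraMap k[X] F a) * this

lemma G_zero (n : ℕ) : G k n 0 = 1 := by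
  unfold G
  simp

lemma G_add {n m j : ℕ} (hj : j < 2 ^ m) : G k n (j + 2 ^ m) = G k n j * G k n (2 ^ m) := by
  unfold G
  rw [← Finset.prod_mul_distrib]
  refine Finset.prod_congr rfl fun l _ => ?_
  rw [← pow_add]
  congr 1
  rcases Nat.lt_or_ge m (l + 1) with h | h
  · have h1 : 2 ^ (m + 1) ≤ 2 ^ (l + 1) := Nat.pow_le_pow_right (by norm_num) h
    rw [pow_succ] at h1
    rw [Nat.div_eq_of_lt (by omega), Nat.div_eq_of_lt (by omega), Nat.div_eq_of_lt (by omega)]
  · obtain ⟨t, rfl⟩ := Nat.exists_eq_add_of_le h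
    rw [pow_add, Nat.add_mul_div_left _ _ (by positivity), Nat.mul_div_cancel_left _ (by positivity)]

lemma G_succ {n i : ℕ} (hi : i < n) : G k n (2 ^ (i + 1)) = G k n (2 ^ i) ^ 2 * node k (i + 2) := by
  have h1 : node k (i + 2) = ∏ l ∈ Finset.range n, node k (l + 2) ^ (if l = i then 1 else 0) := by
    rw [Finset.prod_eq_single i]
    · simp
    · intro l _ hl; simp [hl]
    · intro h; exact absurd (Finset.mem_range.2 hi) h
  rw [h1]
  unfold G
  rw [← Finset.prod_pow, ← Finset.prod_mul_distrib]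
  refine Finset.prod_congr rfl fun l _ => ?_
  rw [← pow_mul, ← pow_add]
  congr 1
  rcases lt_trichotomy l i with h | h | h
  · rw [if_neg h.ne]
    obtain ⟨t, rfl⟩ := Nat.exists_eq_add_of_lt h
    have e1 : 2 ^ (l + t + 1 + 1) = 2 ^ (l + 1) * (2 ^ t * 2) := by ring
    have e2 : 2 ^ (l + t + 1) = 2 ^ (l + 1) * 2 ^ t := by ring
    rw [e1, e2, Nat.mul_div_cancel_left _ (by positivity), Nat.mul_div_cancel_left _ (by positivity)]
    ring
  · subst h
    rw [if_pos rfl, Nat.div_self (by positivity),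
      Nat.div_eq_of_lt (Nat.pow_lt_pow_right (by norm_num) (Nat.lt_succ_self l))]
  · rw [if_neg h.ne', Nat.div_eq_of_lt (Nat.pow_lt_pow_right (by norm_num) (by omega)),
      Nat.div_eq_of_lt (Nat.pow_lt_pow_right (by norm_num) (by omega))]

end poly

section comp

variable {R F K : Type} [CommRing R] [Field F] [Field K] [Algebra R F] [Algebra F K] [Algebra R K]
  [IsScalarTower R F K]

/-- the components of an integral element with respect to an automorphism are integral -/
lemma comp_integral {n : ℕ} (hn : 0 < n) (hnR : IsUnit (n : R)) {ζ : R} {w : K}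
    (hζ : IsPrimitiveRoot (algebraMap R F ζ) n)
    (σ : K →ₐ[F] K) (hσ : σ w = algebraMap R K ζ * w) (r : ℕ → F)
    (hf : IsIntegral R (∑ i ∈ Finset.range n, r i • w ^ i)) (j : ℕ) (hj : j < n) :
    IsIntegral R (r j • w ^ j) := by
  set f := ∑ i ∈ Finset.range n, r i • w ^ i with hfdef
  have hpow : ∀ a i : ℕ, (σ^[a]) (w ^ i) = algebraMap R K ζ ^ (a * i) * w ^ i := by
    intro a
    induction a with
    | zero => intro i; simp
    | succ a ih =>
      intro i
      rw [Function.iterate_succ_apply', ih, map_mul, map_pow, map_pow, hσ, mul_pow]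
      have : σ (algebraMap R K ζ) = algebraMap R K ζ := by
        rw [IsScalarTower.algebraMap_apply R F K]; exact σ.commutes _
      rw [this, ← mul_assoc, ← pow_add, add_mul, one_mul]
  have hit : ∀ a : ℕ, (σ^[a]) f = ∑ i ∈ Finset.range n, r i • (algebraMap R K ζ ^ (a * i) * w ^ i) := by
    intro a
    have e : ∀ g : K, (σ^[a]) g = (σ ^ a) g := by
      intro g; rw [AlgHom.coe_pow]
    rw [e, hfdef, map_sum]
    refine Finset.sum_congr rfl fun i _ => ?_
    rw [map_smul, ← e, hpow]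
  have hint : ∀ a : ℕ, IsIntegral R ((σ^[a]) f) := by
    intro a
    induction a with
    | zero => exact hf
    | succ a ih =>
      rw [Function.iterate_succ_apply']
      exact ih.map (σ.restrictScalars R)
  have hsum : ∑ a ∈ Finset.range n, algebraMap R K ζ ^ (a * (n - j)) * (σ^[a]) f
      = (n : K) * (r j • w ^ j) := by
    simp only [hit, Finset.mul_sum]
    rw [Finset.sum_comm]
    have h1 : ∀ i ∈ Finset.range n, ∑ a ∈ Finset.range n,
        algebraMap R K ζ ^ (a * (n - j)) * (r i • (algebraMap R K ζ ^ (a * i) * w ^ i))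
        = (if i = j then (n : K) else 0) * (r i • w ^ i) := by
      intro i hi
      have hi' := Finset.mem_range.1 hi
      have h2 : ∀ a, algebraMap R K ζ ^ (a * (n - j)) * (r i • (algebraMap R K ζ ^ (a * i) * w ^ i))
          = ((algebraMap R K ζ ^ (n - j + i)) ^ a) * (r i • w ^ i) := by
        intro a
        rw [mul_smul_comm, mul_smul_comm, ← mul_assoc, ← pow_add, ← pow_mul]
        congr 3
        ring
      simp only [h2]
      rw [← Finset.sum_mul]
      congr 1
      have hζK : IsPrimitiveRoot (algebraMap R K ζ) n := by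
        rw [IsScalarTower.algebraMap_apply R F K]
        exact hζ.map_of_injective (algebraMap F K).injective
      split_ifs with hij
      · subst hij
        have : n - i + i = n := by omega
        rw [this, hζK.pow_eq_one]
        simp
      · have h3 : algebraMap R K ζ ^ (n - j + i) ≠ 1 := by
          rw [Ne, hζK.pow_eq_one_iff_dvd]
          intro h4
          obtain ⟨m, hm⟩ := h4
          rcases Nat.lt_or_ge m 1 with hm1 | hm1
          · have : m = 0 := by omega
            subst this; omega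
          · rcases Nat.lt_or_ge m 2 with hm2 | hm2
            · have : m = 1 := by omega
              subst this; omega
            · have : n * 2 ≤ n * m := Nat.mul_le_mul_left n hm2
              omega
        have h4 := geom_sum_mul (algebraMap R K ζ ^ (n - j + i)) n
        rw [← pow_mul, mul_comm _ n, pow_mul, hζK.pow_eq_one, one_pow, sub_self] at h4
        exact (mul_eq_zero.1 h4).resolve_right (sub_ne_zero.2 h3)
    rw [Finset.sum_congr rfl h1]
    simp only [ite_mul, zero_mul]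
    rw [Finset.sum_ite_eq' (Finset.range n) j]
    rw [if_pos (Finset.mem_range.2 hj)]
  have hI : IsIntegral R ((n : K) * (r j • w ^ j)) := by
    rw [← hsum]
    refine IsIntegral.sum _ fun a _ => ?_
    exact (isIntegral_algebraMap.pow _).mul (hint a)
  obtain ⟨v, hv⟩ := hnR.exists_left_inv
  have h5 : r j • w ^ j = algebraMap R K v * ((n : K) * (r j • w ^ j)) := by
    rw [← mul_assoc]
    have : algebraMap R K v * (n : K) = 1 := by
      rw [← map_natCast (algebraMap R K) n, ← map_mul, hv, map_one]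
    rw [this, one_mul]
  rw [h5]
  exact isIntegral_algebraMap.mul hI

end comp

end Pool.Agent.H86.WSR
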