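import Pool.Agent.H86.WSR.Defs

set_option autoImplicit false

namespace Pool.Agent.H86.WSR

open Polynomial IsLocalRing

section

variable {k K : Type} [Field k] [Field K] [Algebra k K]

lemma val_const {P : ValuationSubring K} (hP : IsPoint k P) {c : k} (hc : c ≠ 0) :
    P.valuation (algebraMap k K c) = 1 := by
  apply le_antisymm ((P.valuation_le_one_iff _).2 (hP.1 c))
  have h := (P.valuation_le_one_iff _).2 (hP.1 c⁻¹)
  rw [map_inv₀, map_inv₀] at h
  have h0 : P.valuation (algebraMap k K c) ≠ 0 := by
    rw [Valuation.ne_zero_iff]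
    simpa using hc
  exact (inv_le_one₀ (zero_lt_iff.2 h0)).1 h

lemma val_const_le {P : ValuationSubring K} (hP : IsPoint k P) (c : k) :
    P.valuation (algebraMap k K c) ≤ 1 := (P.valuation_le_one_iff _).2 (hP.1 c)

/-- valuation of a polynomial in an element of the maximal ideal -/
lemma val_aeval {P : ValuationSubring K} (hP : IsPoint k P) {t : K} (ht : P.valuation t < 1) :
    ∀ (n : ℕ) (q : k[X]), q.natDegree ≤ n → q ≠ 0 →
      ∃ e : ℕ, P.valuation (aeval t q) = P.valuation t ^ e := by
  intro n
  induction n with
  | zero =>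
    intro q hq hq0
    rw [Nat.le_zero, natDegree_eq_zero] at hq
    obtain ⟨c, rfl⟩ := hq
    refine ⟨0, ?_⟩
    rw [aeval_C, pow_zero]
    exact val_const hP (by rintro rfl; simp at hq0)
  | succ n ih =>
    intro q hq hq0
    by_cases hc : q.coeff 0 = 0
    · have h1 : q.divX * X = q := by
        have := divX_mul_X_add q
        rw [hc, C_0, add_zero] at this
        exact this
      have h2 : q.divX ≠ 0 := by
        intro h; rw [h, zero_mul] at h1; exact hq0 h1.symm
      have h3 : q.divX.natDegree ≤ n := by
        rw [natDegree_divX_eq_natDegree_tsub_one]; omega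
      obtain ⟨e, he⟩ := ih q.divX h3 h2
      refine ⟨e + 1, ?_⟩
      rw [← h1, map_mul, map_mul, he, aeval_X, pow_succ]
    · refine ⟨0, ?_⟩
      rw [← divX_mul_X_add q, map_add, map_mul, aeval_X, aeval_C, pow_zero]
      have h1 : P.valuation (aeval t q.divX) ≤ 1 := by
        rw [P.valuation_le_one_iff]
        have : ∀ r : k[X], aeval t r ∈ P := by
          intro r
          induction r using Polynomial.induction_on' with
          | add a b ha hb => rw [map_add]; exact P.add_mem _ _ ha hb
          | monomial m a =>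
            rw [aeval_monomial]
            exact P.mul_mem _ _ (hP.1 a) (pow_mem ((P.valuation_le_one_iff _).1 ht.le) m)
        exact this _
      have h2 : P.valuation (aeval t q.divX * t) < 1 := by
        rw [map_mul]
        calc P.valuation (aeval t q.divX) * P.valuation t ≤ 1 * P.valuation t := by gcongr
          _ < 1 := by rwa [one_mul]
      have h3 := val_const hP hc
      rw [Valuation.map_add_eq_of_lt_right _ (by rw [h3]; exact h2), h3]

lemma mem_aeval {P : ValuationSubring K} (hP : IsPoint k P) {t : K} (ht : P.valuation t ≤ 1)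
    (r : k[X]) : P.valuation (aeval t r) ≤ 1 := by
  rw [P.valuation_le_one_iff]
  induction r using Polynomial.induction_on' with
  | add a b ha hb => rw [map_add]; exact P.add_mem _ _ ha hb
  | monomial m a =>
    rw [aeval_monomial]
    exact P.mul_mem _ _ (hP.1 a) (pow_mem ((P.valuation_le_one_iff _).1 ht) m)

lemma isAlgebraic_adjoin (hK : IsFunctionField k K) {t : K} (ht : Transcendental k t) :
    Algebra.IsAlgebraic (Algebra.adjoin k {t}) K := by
  have h1 : AlgebraicIndependent k (fun _ : Unit => t) := by
    rw [algebraicIndependent_unique_type_iff]; exact ht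
  have h2 := h1.isTranscendenceBasis_of_trdeg_le_of_finite (by rw [hK.2]; simp)
  have h3 := h2.isAlgebraic
  have h4 : Set.range (fun _ : Unit => t) = {t} := by
    ext x; simp [eq_comm]
  rw [h4] at h3
  exact h3

variable [IsAlgClosed k]

lemma exists_const_of_isAlgebraic {f : K} (hf : IsAlgebraic k f) : ∃ c : k, algebraMap k K c = f := by
  have := IsAlgClosed.algebraMap_bijective_of_isIntegral (k := k) (K := integralClosure k K)
  have h : IsIntegral k f := hf.isIntegral
  obtain ⟨c, hc⟩ := this.2 ⟨f, h⟩
  exact ⟨c, congrArg Subtype.val hc⟩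

lemma transcendental_of_lt {P : ValuationSubring K} (hP : IsPoint k P) {t : K}
    (ht : P.valuation t < 1) (h0 : t ≠ 0) : Transcendental k t := by
  intro h
  obtain ⟨c, rfl⟩ := exists_const_of_isAlgebraic h
  have hc : c ≠ 0 := by rintro rfl; simp at h0
  rw [val_const hP hc] at ht
  exact lt_irrefl _ ht

/-- a nontrivial polynomial relation of `f` over `k[t]` -/
lemma exists_rel (hK : IsFunctionField k K) {t : K} (ht : Transcendental k t) (f : K) :
    ∃ p : k[X][X], p ≠ 0 ∧ ∑ i ∈ Finset.range (p.natDegree + 1), aeval t (p.coeff i) * f ^ i = 0 := by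
  have := isAlgebraic_adjoin hK ht
  obtain ⟨p, hp0, hp⟩ := this.isAlgebraic f
  have h1 : ∀ a : Algebra.adjoin k {t}, ∃ q : k[X], aeval t q = (a : K) := by
    intro a
    have h : (a : K) ∈ (aeval t : k[X] →ₐ[k] K).range := by
      rw [← Algebra.adjoin_singleton_eq_range_aeval]; exact a.2
    exact h
  choose g hg using h1
  have hg0 : ∀ a, g a = 0 → a = 0 := by
    intro a ha
    apply Subtype.ext
    rw [← hg a, ha, map_zero]; rfl
  refine ⟨∑ i ∈ Finset.range (p.natDegree + 1), monomial i (g (p.coeff i)), ?_, ?_⟩
  · intro h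
    apply hp0
    rw [← leadingCoeff_eq_zero]
    apply hg0
    have h2 := congrArg (fun r => coeff r p.natDegree) h
    simp only [finsetSum_coeff, coeff_monomial, coeff_zero] at h2
    rw [Finset.sum_ite_eq' (Finset.range (p.natDegree + 1))] at h2
    simpa using h2
  · have hcoeff : ∀ i, (∑ i ∈ Finset.range (p.natDegree + 1), monomial i (g (p.coeff i)) : k[X][X]).coeff i
        = if i < p.natDegree + 1 then g (p.coeff i) else 0 := by
      intro i
      simp only [finsetSum_coeff, coeff_monomial]
      rw [Finset.sum_ite_eq' (Finset.range (p.natDegree + 1))]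
      simp
    have hdeg : (∑ i ∈ Finset.range (p.natDegree + 1), monomial i (g (p.coeff i)) : k[X][X]).natDegree
        ≤ p.natDegree := by
      refine natDegree_sum_le_of_forall_le _ _ fun i hi => ?_
      refine (natDegree_monomial_le _).trans ?_
      have := Finset.mem_range.1 hi; omega
    -- compute with the larger range, then drop zero terms
    have hbig : ∑ i ∈ Finset.range (p.natDegree + 1),
        aeval t ((∑ i ∈ Finset.range (p.natDegree + 1), monomial i (g (p.coeff i)) : k[X][X]).coeff i)
          * f ^ i = 0 := by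
      rw [aeval_eq_sum_range] at hp
      rw [← hp]
      refine Finset.sum_congr rfl fun i hi => ?_
      rw [hcoeff, if_pos (Finset.mem_range.1 hi), hg, Algebra.smul_def]
      rfl
    rw [← hbig]
    refine Finset.sum_subset (Finset.range_mono (by omega)) fun i _ hi => ?_
    have h5 : (∑ i ∈ Finset.range (p.natDegree + 1), monomial i (g (p.coeff i)) : k[X][X]).natDegree < i := by
      have := Finset.mem_range.not.1 hi; omega
    rw [coeff_eq_zero_of_natDegree_lt h5, map_zero, zero_mul]

/-- the valuation of a point is archimedean -/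
lemma arch (hK : IsFunctionField k K) {P : ValuationSubring K} (hP : IsPoint k P) {t : K}
    (ht : P.valuation t < 1) (h0 : t ≠ 0) (f : K) :
    ∃ n : ℕ, P.valuation f * P.valuation t ^ n ≤ 1 := by
  by_cases hf : P.valuation f ≤ 1
  · exact ⟨0, by rwa [pow_zero, mul_one]⟩
  push Not at hf
  obtain ⟨p, hp0, hp⟩ := exists_rel hK (transcendental_of_lt hP ht h0) f
  set N := p.natDegree with hN
  have hlc : p.coeff N ≠ 0 := by rw [hN]; exact leadingCoeff_ne_zero.2 hp0
  obtain ⟨e, he⟩ := val_aeval hP ht _ (p.coeff N) le_rfl hlc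
  refine ⟨e, ?_⟩
  rw [Finset.sum_range_succ] at hp
  have h1 : aeval t (p.coeff N) * f ^ N = -∑ i ∈ Finset.range N, aeval t (p.coeff i) * f ^ i := by
    rw [eq_neg_iff_add_eq_zero, add_comm]; exact hp
  have hf0 : P.valuation f ≠ 0 := by intro h; rw [h] at hf; exact absurd hf (by simp)
  rcases Nat.eq_zero_or_pos N with hN0 | hNpos
  · rw [hN0] at h1
    simp only [pow_zero, mul_one, Finset.range_zero, Finset.sum_empty, neg_zero] at h1
    rw [← hN0] at h1
    rw [h1, map_zero] at he
    have : P.valuation t ^ e ≠ 0 := pow_ne_zero _ ((Valuation.ne_zero_iff _).2 h0)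
    exact absurd he.symm this
  have h2 : P.valuation (aeval t (p.coeff N) * f ^ N) ≤ P.valuation f ^ (N - 1) := by
    rw [h1, Valuation.map_neg]
    refine Valuation.map_sum_le _ fun i hi => ?_
    rw [map_mul, map_pow]
    have hi' := Finset.mem_range.1 hi
    calc P.valuation (aeval t (p.coeff i)) * P.valuation f ^ i ≤ 1 * P.valuation f ^ i := by
          gcongr; exact mem_aeval hP ht.le _
      _ = P.valuation f ^ i := one_mul _
      _ ≤ P.valuation f ^ (N - 1) := pow_le_pow_right₀ hf.le (by omega)
  rw [map_mul, map_pow, he] at h2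
  have h3 : P.valuation f ^ N = P.valuation f * P.valuation f ^ (N - 1) := by
    rw [← pow_succ']; congr 1; omega
  rw [h3] at h2
  have h4 : 0 < P.valuation f ^ (N - 1) := by
    rw [zero_lt_iff]; exact pow_ne_zero _ hf0
  have h5 : (P.valuation f * P.valuation t ^ e) * P.valuation f ^ (N - 1) ≤ 1 * P.valuation f ^ (N - 1) := by
    rw [one_mul]
    calc _ = P.valuation t ^ e * (P.valuation f * P.valuation f ^ (N - 1)) := by
          rw [mul_comm (P.valuation f), mul_assoc]
      _ ≤ _ := h2
  exact le_of_mul_le_mul_right h5 h4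

/-- the residue field is `k` -/
lemma exists_residue (hK : IsFunctionField k K) {P : ValuationSubring K} (hP : IsPoint k P)
    {t : K} (ht : P.valuation t < 1) (h0 : t ≠ 0) {f : K} (hf : P.valuation f ≤ 1) :
    ∃ c : k, P.valuation (f - algebraMap k K c) < 1 := by
  obtain ⟨p, hp0, hp⟩ := exists_rel hK (transcendental_of_lt hP ht h0) f
  -- divide by the largest power of X
  have key : ∀ n : ℕ, ∀ p : k[X][X], p ≠ 0 → (p.leadingCoeff.natDegree ≤ n) →
      ∑ i ∈ Finset.range (p.natDegree + 1), aeval t (p.coeff i) * f ^ i = 0 →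
      ∃ q : k[X][X], (∃ i, (q.coeff i).coeff 0 ≠ 0) ∧
        ∑ i ∈ Finset.range (q.natDegree + 1), aeval t (q.coeff i) * f ^ i = 0 := by
    intro n
    induction n with
    | zero =>
      intro p hp0 hn hp
      refine ⟨p, ⟨p.natDegree, ?_⟩, hp⟩
      have h1 : p.leadingCoeff = C (p.leadingCoeff.coeff 0) := eq_C_of_natDegree_le_zero hn
      intro h2
      change p.leadingCoeff.coeff 0 = 0 at h2
      rw [h2, C_0] at h1
      exact hp0 (leadingCoeff_eq_zero.1 h1)
    | succ n ih =>
      intro p hp0 hn hp
      by_cases hall : ∃ i, (p.coeff i).coeff 0 ≠ 0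
      · exact ⟨p, hall, hp⟩
      push Not at hall
      -- p = X • p'
      obtain ⟨p', hp'⟩ : ∃ p' : k[X][X], p = C X * p' := by
        have : C (X : k[X]) ∣ p := by
          rw [C_dvd_iff_dvd_coeff]
          intro i
          rw [X_dvd_iff]; exact hall i
        exact this
      have hp'0 : p' ≠ 0 := by rintro rfl; rw [mul_zero] at hp'; exact hp0 hp'
      have hnd : p.natDegree = p'.natDegree := by
        rw [hp', natDegree_C_mul X_ne_zero]
      apply ih p' hp'0
      · have h3 : p.leadingCoeff = X * p'.leadingCoeff := by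
          rw [hp', leadingCoeff_mul, leadingCoeff_C]
        rw [h3, natDegree_X_mul (leadingCoeff_ne_zero.2 hp'0)] at hn
        omega
      · have h4 : ∑ i ∈ Finset.range (p'.natDegree + 1), aeval t (p.coeff i) * f ^ i
            = t * ∑ i ∈ Finset.range (p'.natDegree + 1), aeval t (p'.coeff i) * f ^ i := by
          rw [Finset.mul_sum]
          refine Finset.sum_congr rfl fun i _ => ?_
          rw [hp', coeff_C_mul, map_mul, aeval_X]; ring
        rw [hnd, h4] at hp
        exact (mul_eq_zero.1 hp).resolve_left h0
  obtain ⟨q, ⟨i0, hi0⟩, hq⟩ := key _ p hp0 le_rfl hp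
  -- reduce
  set r : k[X] := q.map (constantCoeff : k[X] →+* k) with hr
  have hr0 : r ≠ 0 := by
    intro h
    apply hi0
    have := congrArg (fun s => coeff s i0) h
    simpa [hr, coeff_map] using this
  have hrv : P.valuation (aeval f r) < 1 := by
    have h1 : aeval f r = ∑ i ∈ Finset.range (q.natDegree + 1),
        algebraMap k K ((q.coeff i).coeff 0) * f ^ i := by
      rw [aeval_eq_sum_range' (n := q.natDegree + 1)
        (by rw [Nat.lt_succ_iff]; exact natDegree_map_le)]
      refine Finset.sum_congr rfl fun i _ => ?_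
      rw [Algebra.smul_def, hr, coeff_map]; rfl
    have h2 : aeval f r = -∑ i ∈ Finset.range (q.natDegree + 1),
        (aeval t (q.coeff i) - algebraMap k K ((q.coeff i).coeff 0)) * f ^ i := by
      rw [h1, ← sub_eq_zero, sub_neg_eq_add, ← Finset.sum_add_distrib, ← hq]
      refine Finset.sum_congr rfl fun i _ => ?_
      ring
    rw [h2, Valuation.map_neg]
    refine Valuation.map_sum_lt _ one_ne_zero fun i _ => ?_
    have h3 : aeval t (q.coeff i) - algebraMap k K ((q.coeff i).coeff 0)
        = aeval t (q.coeff i).divX * t := by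
      conv_lhs => rw [← divX_mul_X_add (q.coeff i)]
      simp only [map_add, map_mul, aeval_X, aeval_C, coeff_add, coeff_C_zero, mul_coeff_zero,
        coeff_X_zero, mul_zero, zero_add, add_sub_cancel_right]
    rw [h3, map_mul, map_mul, map_pow]
    have h4 := mem_aeval hP ht.le (q.coeff i).divX
    have h5 : P.valuation f ^ i ≤ 1 := pow_le_one₀ zero_le hf
    calc _ ≤ 1 * P.valuation t * 1 := by gcongr
      _ < 1 := by rwa [one_mul, mul_one]
  -- split r
  have hsplit := IsAlgClosed.splits r
  have hprod := hsplit.eq_prod_roots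
  by_contra hcon
  push Not at hcon
  have hfac : ∀ c : k, P.valuation (f - algebraMap k K c) = 1 := by
    intro c
    refine le_antisymm ?_ (hcon c)
    refine (Valuation.map_sub _ _ _).trans ?_
    exact max_le hf (val_const_le hP c)
  have h7 : P.valuation (aeval f r) = 1 := by
    rw [hprod, map_mul, map_mul, aeval_C, val_const hP (leadingCoeff_ne_zero.2 hr0), one_mul,
      map_multiset_prod, map_multiset_prod, Multiset.map_map, Multiset.map_map]
    apply Multiset.prod_eq_one
    intro y hy
    obtain ⟨c, _, rfl⟩ := Multiset.mem_map.1 hy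
    simp only [Function.comp_apply, map_sub, aeval_X, aeval_C]
    exact hfac c
  rw [h7] at hrv
  exact lt_irrefl _ hrv

/-- a function without poles is constant -/
lemma const_of_regular {P : ValuationSubring K} {f : K} (hf : f ∈ regularAway k P)
    (hfP : P.valuation f ≤ 1) : ∃ c : k, algebraMap k K c = f := by
  have h1 : ∀ V : ValuationSubring K, (Set.range (algebraMap k K)) ⊆ V.toSubring → f ∈ V := by
    intro V hV
    by_cases htop : V = ⊤
    · rw [htop]; exact ValuationSubring.mem_top _
    by_cases hVP : V = P
    · rw [hVP]; exact (P.valuation_le_one_iff _).1 hfP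
    exact hf V ⟨fun c => hV ⟨c, rfl⟩, htop⟩ hVP
  have h2 : f ∈ (⨅ V : {V : ValuationSubring K // Set.range (algebraMap k K) ⊆ V.toSubring},
      V.1.toSubring) := by
    rw [Subring.mem_iInf]
    exact fun V => h1 V.1 V.2
  rw [iInf_valuationSubring_superset] at h2
  have h3 : IsIntegral (Subring.closure (Set.range (algebraMap k K))) f := h2
  have h4 : IsIntegral k f := by
    have e : Subring.closure (Set.range (algebraMap k K)) = (algebraMap k K).range := by
      rw [← RingHom.coe_range, Subring.closure_eq]
    obtain ⟨p, hp, hpf⟩ := h3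
    have hl : p ∈ Polynomial.lifts ((algebraMap k K).codRestrict
        (Subring.closure (Set.range (algebraMap k K))) (fun c => Subring.subset_closure ⟨c, rfl⟩)) := by
      rw [Polynomial.lifts_iff_coeff_lifts]
      intro n
      have h5 : (p.coeff n : K) ∈ (algebraMap k K).range := by rw [← e]; exact (p.coeff n).2
      obtain ⟨c, hc⟩ := h5
      exact ⟨c, Subtype.ext hc⟩
    obtain ⟨q, hq, -, hqm⟩ := Polynomial.lifts_and_degree_eq_and_monic hl hp
    refine ⟨q, hqm, ?_⟩
    rw [← hq, eval₂_map] at hpf
    exact hpf
  exact exists_const_of_isAlgebraic h4.isAlgebraic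

end

end Pool.Agent.H86.WSR
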