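import Mathlib

set_option autoImplicit false

/-! # The numerical semigroup generated by `2 ^ n` and the numbers `2 ^ n + 2 ^ i`, `i < n` -/

namespace Pool.Agent.H86.WSR

open Finset

/-- the generators -/
def gw (n : ℕ) : Fin (n + 1) → ℕ := Fin.cons (2 ^ n) (fun i : Fin n => 2 ^ n + 2 ^ (i : ℕ))

@[simp] lemma gw_zero (n : ℕ) : gw n 0 = 2 ^ n := rfl
@[simp] lemma gw_succ (n : ℕ) (i : Fin n) : gw n i.succ = 2 ^ n + 2 ^ (i : ℕ) := by simp [gw]

/-- the weight of a vector of exponents -/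
def wt {n : ℕ} (u : Fin (n + 1) → ℕ) : ℕ := ∑ i, u i * gw n i

/-- the degree in the last variables -/
def dg {n : ℕ} (u : Fin (n + 1) → ℕ) : ℕ := ∑ i : Fin n, u i.succ

/-- normal forms -/
def Nf {n : ℕ} (u : Fin (n + 1) → ℕ) : Prop := ∀ i : Fin n, u i.succ < 2

lemma wt_add {n : ℕ} (u v : Fin (n + 1) → ℕ) : wt (u + v) = wt u + wt v := by
  simp only [wt, Pi.add_apply, add_mul, sum_add_distrib]

lemma dg_add {n : ℕ} (u v : Fin (n + 1) → ℕ) : dg (u + v) = dg u + dg v := by
  simp only [dg, Pi.add_apply, sum_add_distrib]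

lemma wt_single {n : ℕ} (j : Fin (n + 1)) (c : ℕ) : wt (Pi.single j c : Fin (n + 1) → ℕ) = c * gw n j := by
  unfold wt
  rw [Finset.sum_eq_single j]
  · simp
  · intro b _ hb; simp [Pi.single_eq_of_ne hb]
  · simp

lemma dg_single_succ {n : ℕ} (j : Fin n) (c : ℕ) :
    dg (Pi.single j.succ c : Fin (n + 1) → ℕ) = c := by
  unfold dg
  rw [Finset.sum_eq_single j]
  · simp
  · intro b _ hb
    rw [Pi.single_eq_of_ne]
    exact fun h => hb (Fin.succ_injective _ h)
  · simp

lemma dg_single_zero {n : ℕ} (c : ℕ) : dg (Pi.single 0 c : Fin (n + 1) → ℕ) = 0 := by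
  unfold dg
  apply Finset.sum_eq_zero
  intro i _
  rw [Pi.single_eq_of_ne (Fin.succ_ne_zero i)]

lemma wt_eq {n : ℕ} (u : Fin (n + 1) → ℕ) :
    wt u = 2 ^ n * (u 0 + dg u) + ∑ i : Fin n, u i.succ * 2 ^ (i : ℕ) := by
  unfold wt dg
  rw [Fin.sum_univ_succ, mul_add, Finset.mul_sum, add_assoc, ← sum_add_distrib, gw_zero, mul_comm]
  congr 1
  refine sum_congr rfl fun i _ => ?_
  rw [gw_succ]; ring

lemma digit (n : ℕ) : ∀ (A : ℕ) (e : Fin n → ℕ), (∀ i, e i < 2) → ∀ j : Fin n,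
    (2 ^ n * A + ∑ i : Fin n, e i * 2 ^ (i : ℕ)) / 2 ^ (j : ℕ) % 2 = e j := by
  induction n with
  | zero => intro A e _ j; exact j.elim0
  | succ n ih =>
    intro A e he j
    have h1 : 2 ^ (n + 1) * A + ∑ i : Fin (n + 1), e i * 2 ^ (i : ℕ) =
        e 0 + 2 * (2 ^ n * A + ∑ i : Fin n, e i.succ * 2 ^ (i : ℕ)) := by
      rw [Fin.sum_univ_succ, mul_add, Finset.mul_sum]
      simp only [Fin.val_zero, pow_zero, mul_one, Fin.val_succ]
      have : ∀ i : Fin n, e i.succ * 2 ^ ((i : ℕ) + 1) = 2 * (e i.succ * 2 ^ (i : ℕ)) := by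
        intro i; ring
      simp only [this]
      ring
    rw [h1]
    have h0 := he 0
    refine Fin.cases ?_ (fun j => ?_) j
    · simp only [Fin.val_zero, pow_zero, Nat.div_one]
      omega
    · rw [Fin.val_succ, pow_succ', ← Nat.div_div_eq_div_mul]
      have h2 : (e 0 + 2 * (2 ^ n * A + ∑ i : Fin n, e i.succ * 2 ^ (i : ℕ))) / 2 =
          2 ^ n * A + ∑ i : Fin n, e i.succ * 2 ^ (i : ℕ) := by omega
      rw [h2]
      exact ih A (fun i => e i.succ) (fun i => he _) j

lemma digits_lt (n : ℕ) (e : Fin n → ℕ) (he : ∀ i, e i < 2) :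
    ∑ i : Fin n, e i * 2 ^ (i : ℕ) < 2 ^ n := by
  induction n with
  | zero => simp
  | succ n ih =>
    rw [Fin.sum_univ_castSucc]
    have h1 := ih (fun i => e i.castSucc) (fun i => he _)
    have h2 := he (Fin.last n)
    simp only [Fin.val_castSucc, Fin.val_last]
    have h3 : e (Fin.last n) * 2 ^ n ≤ 1 * 2 ^ n := Nat.mul_le_mul_right _ (by omega)
    rw [pow_succ]
    omega

lemma wt_digit {n : ℕ} {u : Fin (n + 1) → ℕ} (hu : Nf u) (j : Fin n) :
    wt u / 2 ^ (j : ℕ) % 2 = u j.succ := by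
  rw [wt_eq]
  exact digit n _ (fun i => u i.succ) hu j

lemma wt_div {n : ℕ} {u : Fin (n + 1) → ℕ} (hu : Nf u) : wt u / 2 ^ n = u 0 + dg u := by
  rw [wt_eq, Nat.mul_add_div (by positivity), Nat.div_eq_of_lt (digits_lt n _ hu), add_zero]

lemma wt_inj {n : ℕ} {u v : Fin (n + 1) → ℕ} (hu : Nf u) (hv : Nf v) (h : wt u = wt v) : u = v := by
  have h1 : ∀ j : Fin n, u j.succ = v j.succ := fun j => by
    rw [← wt_digit hu, ← wt_digit hv, h]
  have h2 : dg u = dg v := sum_congr rfl fun j _ => h1 j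
  have h3 : u 0 + dg u = v 0 + dg v := by rw [← wt_div hu, ← wt_div hv, h]
  funext j
  refine Fin.cases ?_ (fun j => ?_) j
  · omega
  · exact h1 j

/-- the exponents of the leading term of the right side of the `i`-th relation -/
def red {n : ℕ} (i : Fin n) : Fin (n + 1) → ℕ :=
  if h : (i : ℕ) + 1 < n then Pi.single 0 1 + Pi.single (⟨i + 1, h⟩ : Fin n).succ 1
  else Pi.single 0 3

lemma wt_red {n : ℕ} (i : Fin n) : wt (red i) = 2 * gw n i.succ := by
  unfold red
  split_ifs with h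
  · rw [wt_add, wt_single, wt_single, gw_zero, gw_succ, gw_succ]
    simp only [pow_succ]; ring
  · have hi : n = (i : ℕ) + 1 := by have := i.2; omega
    rw [wt_single, gw_zero, gw_succ]
    have h2 : 2 ^ n = 2 * 2 ^ (i : ℕ) := by conv_lhs => rw [hi, pow_succ']
    omega

lemma dg_red {n : ℕ} (i : Fin n) : dg (red i) ≤ 1 := by
  unfold red
  split_ifs with h
  · rw [dg_add, dg_single_succ, dg_single_zero]
  · rw [dg_single_zero]; omega

lemma nf_red {n : ℕ} (i : Fin n) : Nf (red i) := by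
  intro j
  have h1 : red i j.succ ≤ dg (red i) :=
    Finset.single_le_sum (f := fun j : Fin n => red i j.succ) (fun _ _ => Nat.zero_le _) (mem_univ j)
  have := dg_red i
  omega

/-- splitting off two copies of a variable -/
lemma split2 {n : ℕ} (u : Fin (n + 1) → ℕ) (i : Fin n) (hi : 2 ≤ u i.succ) :
    ∃ v : Fin (n + 1) → ℕ, u = v + Pi.single i.succ 2 := by
  refine ⟨Function.update u i.succ (u i.succ - 2), ?_⟩
  funext j
  by_cases hj : j = i.succ
  · subst hj
    simp only [Pi.add_apply, Function.update_self, Pi.single_eq_same]; omega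
  · simp only [Pi.add_apply, Function.update_of_ne hj, Pi.single_eq_of_ne hj, add_zero]

lemma exists_nf {n : ℕ} : ∀ (s : ℕ) (u : Fin (n + 1) → ℕ), dg u ≤ s →
    ∃ v : Fin (n + 1) → ℕ, Nf v ∧ wt v = wt u := by
  intro s
  induction s with
  | zero =>
    intro u hu
    refine ⟨u, fun i => ?_, rfl⟩
    have h1 : u i.succ ≤ dg u :=
      Finset.single_le_sum (f := fun j : Fin n => u j.succ) (fun _ _ => Nat.zero_le _) (mem_univ i)
    omega
  | succ s ih =>
    intro u hu
    by_cases h : Nf u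
    · exact ⟨u, h, rfl⟩
    unfold Nf at h
    push Not at h
    obtain ⟨i, hi⟩ := h
    obtain ⟨v, rfl⟩ := split2 u i hi
    obtain ⟨w, hw, hw'⟩ := ih (v + red i) (by
      rw [dg_add] at hu ⊢
      rw [dg_single_succ] at hu
      have := dg_red i
      omega)
    refine ⟨w, hw, ?_⟩
    rw [hw', wt_add, wt_add, wt_red, wt_single]

/-- the semigroup -/
def Sg (n : ℕ) : AddSubmonoid ℕ := AddSubmonoid.closure (Set.range (gw n))

lemma mem_Sg_iff {n : ℕ} (m : ℕ) : m ∈ Sg n ↔ ∃ u : Fin (n + 1) → ℕ, Nf u ∧ wt u = m := by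
  constructor
  · intro h
    have h1 : ∃ u : Fin (n + 1) → ℕ, wt u = m := by
      induction h using AddSubmonoid.closure_induction with
      | mem x hx =>
        obtain ⟨j, rfl⟩ := hx
        exact ⟨Pi.single j 1, by rw [wt_single, one_mul]⟩
      | zero => exact ⟨0, by simp [wt]⟩
      | add x y _ _ hx hy =>
        obtain ⟨u, rfl⟩ := hx
        obtain ⟨v, rfl⟩ := hy
        exact ⟨u + v, wt_add u v⟩
    obtain ⟨u, rfl⟩ := h1
    exact exists_nf _ u le_rfl
  · rintro ⟨u, -, rfl⟩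
    unfold wt Sg
    refine sum_mem fun i _ => ?_
    rw [← smul_eq_mul]
    exact nsmul_mem (AddSubmonoid.subset_closure (Set.mem_range_self i)) _

/-- sum of the last `n` binary digits -/
def pc (n m : ℕ) : ℕ := ∑ i : Fin n, m / 2 ^ (i : ℕ) % 2

lemma digits_sum (n m : ℕ) : ∑ i : Fin n, (m / 2 ^ (i : ℕ) % 2) * 2 ^ (i : ℕ) = m % 2 ^ n := by
  induction n with
  | zero => simp [Nat.mod_one]
  | succ n ih =>
    rw [Fin.sum_univ_castSucc]
    simp only [Fin.val_castSucc, Fin.val_last]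
    rw [ih, Nat.mod_pow_succ, mul_comm]

lemma mem_Sg_iff' {n : ℕ} (m : ℕ) : m ∈ Sg n ↔ pc n m ≤ m / 2 ^ n := by
  rw [mem_Sg_iff]
  constructor
  · rintro ⟨u, hu, rfl⟩
    rw [wt_div hu]
    have : pc n (wt u) = dg u := sum_congr rfl fun j _ => wt_digit hu j
    omega
  · intro h
    refine ⟨Fin.cons (m / 2 ^ n - pc n m) (fun i : Fin n => m / 2 ^ (i : ℕ) % 2), ?_, ?_⟩
    · intro i
      rw [Fin.cons_succ]
      exact Nat.mod_lt _ (by norm_num)
    · rw [wt_eq]
      have h1 : dg (Fin.cons (m / 2 ^ n - pc n m) (fun i : Fin n => m / 2 ^ (i : ℕ) % 2) :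
          Fin (n + 1) → ℕ) = pc n m := by
        unfold dg pc
        simp only [Fin.cons_succ]
      rw [h1]
      simp only [Fin.cons_succ, Fin.cons_zero]
      rw [digits_sum, Nat.sub_add_cancel h]
      exact Nat.div_add_mod m (2 ^ n)

lemma pc_add (n A r : ℕ) : pc n (2 ^ n * A + r) = pc n r := by
  have h1 : ∀ m, pc n m = pc n (m % 2 ^ n) := by
    intro m
    unfold pc
    refine sum_congr rfl fun j _ => ?_
    have h2 := digit n (m / 2 ^ n) (fun i : Fin n => m / 2 ^ (i : ℕ) % 2)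
      (fun i => Nat.mod_lt _ (by norm_num)) j
    have h3 := digit n 0 (fun i : Fin n => m / 2 ^ (i : ℕ) % 2)
      (fun i => Nat.mod_lt _ (by norm_num)) j
    simp only [digits_sum, mul_zero, zero_add] at h2 h3
    exact h3.symm
  rw [h1 (2 ^ n * A + r), h1 r, Nat.mul_add_mod]

lemma sum_range_two_mul (f : ℕ → ℕ) (M : ℕ) :
    ∑ r ∈ range (2 * M), f r = ∑ q ∈ range M, (f (2 * q) + f (2 * q + 1)) := by
  induction M with
  | zero => simp
  | succ M ih =>
    rw [mul_add, mul_one, sum_range_succ, sum_range_succ, ih, sum_range_succ]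
    ring

lemma pc_succ (n q b : ℕ) (hb : b < 2) : pc (n + 1) (2 * q + b) = b + pc n q := by
  unfold pc
  rw [Fin.sum_univ_succ]
  simp only [Fin.val_zero, pow_zero, Nat.div_one, Fin.val_succ]
  congr 1
  · omega
  · refine sum_congr rfl fun i _ => ?_
    rw [pow_succ', ← Nat.div_div_eq_div_mul]
    congr 2
    omega

lemma two_mul_sum_pc (n : ℕ) : 2 * ∑ r ∈ range (2 ^ n), pc n r = n * 2 ^ n := by
  induction n with
  | zero => simp [pc]
  | succ n ih =>
    rw [pow_succ', sum_range_two_mul]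
    have h1 : ∀ q, pc (n + 1) (2 * q) + pc (n + 1) (2 * q + 1) = 1 + 2 * pc n q := by
      intro q
      have e1 := pc_succ n q 0 (by norm_num)
      have e2 := pc_succ n q 1 (by norm_num)
      rw [add_zero] at e1
      rw [e1, e2]; ring
    simp only [h1]
    rw [sum_add_distrib, ← mul_sum, ih]
    simp only [sum_const, card_range, smul_eq_mul]
    ring

lemma compl_eq (n : ℕ) : ((Sg n : Set ℕ))ᶜ =
    (((range (2 ^ n)).sigma fun r => range (pc n r)).image fun x : (_ : ℕ) × ℕ => 2 ^ n * x.2 + x.1 :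
      Finset ℕ) := by
  ext m
  simp only [Set.mem_compl_iff, SetLike.mem_coe, mem_Sg_iff', not_le, coe_image, Set.mem_image,
    mem_sigma, mem_range, Sigma.exists]
  constructor
  · intro h
    refine ⟨m % 2 ^ n, m / 2 ^ n, ⟨Nat.mod_lt _ (by positivity), ?_⟩, Nat.div_add_mod m (2 ^ n)⟩
    have := pc_add n (m / 2 ^ n) (m % 2 ^ n)
    rw [Nat.div_add_mod] at this
    rwa [← this]
  · rintro ⟨r, q, ⟨hr, hq⟩, rfl⟩
    rw [pc_add, Nat.mul_add_div (by positivity), Nat.div_eq_of_lt hr, add_zero]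
    exact hq

lemma compl_finite (n : ℕ) : (((Sg n : Set ℕ))ᶜ).Finite := by
  rw [compl_eq]
  exact Finset.finite_toSet _

/-- the genus -/
lemma genus_eq (n : ℕ) : 2 * (((Sg n : Set ℕ))ᶜ).ncard = n * 2 ^ n := by
  rw [compl_eq, Set.ncard_coe_finset, card_image_of_injOn, card_sigma, ← two_mul_sum_pc]
  · simp only [card_range]
  · rintro ⟨r, q⟩ h ⟨r', q'⟩ h' e
    simp only [coe_sigma, Set.mem_sigma_iff, mem_coe, mem_range] at h h'
    simp only at e
    have h1 : q = q' := by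
      have := congrArg (· / 2 ^ n) e
      simpa only [Nat.mul_add_div (show 0 < 2 ^ n by positivity), Nat.div_eq_of_lt h.1,
        Nat.div_eq_of_lt h'.1, add_zero] using this
    subst h1
    have h2 : r = r' := by omega
    subst h2
    rfl

end Pool.Agent.H86.WSR
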